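import Pool.Agent.Helper703.ST.Defs
import Pool.Agent.Helper703.ST.Geom
import Pool.Agent.Helper703.ST.Main
import Pool.Agent.Helper703.KL.Exist1
import Pool.Agent.Helper703.KL.Exist2

set_option autoImplicit false

/-!
# Left cells need not be unions of sign types in affine type `D~_4`

Label the Coxeter graph of affine type `D~_4` so that `2` is the central vertex and `0, 1, 3, 4`
are the leaves (`0` is the affine vertex).  Put `g' = s_0 s_1 s_3 s_2 s_0 s_1 s_3` and
`w = g' s_2`.  The alcoves of `w` and `s_4 w` are separated by exactly one hyperplane, on which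
the simple root `α_2` has the value `-1`, so that `w` and `s_4 w` lie in the same sign type.
They do not lie in the same left cell.

Idea of the proof of the second fact.  Let `v_0 = C_{s_0} C_{s_1} C_{s_3}`.  Right multiplication
by `C_{s_2} v_0 - ((v + v⁻¹)² + 1)` maps the left ideal of `v_0` to itself and induces, modulo the
span of the basis elements `C_z` that are lower, a permutation of the Kazhdan-Lusztig basis
commuting with left multiplication.  It interchanges `s_4 g'` with `s_4 s_0 s_1 s_3` and `g'` with
`s_0 s_1 s_3`.  As `s_4` is a right descent of the former element and not of the latter one, `g'`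
and `s_4 g'` lie in different left cells, and by a right star operation so do `w` and `s_4 w`.
-/

namespace Pool.Agent.Results.MP_eee0a5_al.SignTypes

open Module Pool.Agent.Helper703.KL Pool.Agent.Helper703.ST

/-- First part: the Iwahori-Hecke algebra of affine type `D~_4`, its bar involution, its
Kazhdan-Lusztig basis and the alcove form exist, so that the other parts are not vacuous.
Second part: the alcove form, defined by its recursion, is the geometric one.
Third part: for every Coxeter system `(W, S)` of affine type `D~_4`, every model `H` of its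
Iwahori-Hecke algebra with standard basis `T`, bar involution `bar` and Kazhdan-Lusztig basis `C`,
and its alcove form `k`, there are a left cell `Γ` and a sign type `X` such that `X` meets `Γ`
but is not contained in `Γ`. -/
theorem result :
    (∃ (H : Type) (_ : Ring H) (_ : Algebra A H) (T : Basis affD.Group A H) (bar : H →+* H)
      (C : Basis affD.Group A H) (k : affD.Group → (Fin 4 → ℤ) → ℤ),
        IsHecke affD.toCoxeterSystem T ∧ IsBar affD.toCoxeterSystem T bar ∧
        IsKLBasis affD.toCoxeterSystem T bar C ∧ IsAlcoveForm affD.toCoxeterSystem k) ∧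
    (∀ (W : Type) [Group W] (cs : CoxeterSystem affD W) (k : W → (Fin 4 → ℤ) → ℤ),
      IsAlcoveForm cs k → IsGeometric cs k) ∧
    (∀ (W : Type) [Group W] (cs : CoxeterSystem affD W) (H : Type) [Ring H] [Algebra A H]
      (T : Basis W A H) (bar : H →+* H) (C : Basis W A H) (k : W → (Fin 4 → ℤ) → ℤ),
      IsHecke cs T → IsBar cs T bar → IsKLBasis cs T bar C → IsAlcoveForm cs k →
      ∃ Γ X : Set W, IsLeftCell cs T C Γ ∧ IsSignType k X ∧ (X ∩ Γ).Nonempty ∧ ¬ X ⊆ Γ) := by
  refine ⟨?_, ?_, ?_⟩
  · have hT := TB_isHecke (cs := affD.toCoxeterSystem)
    have hb := hT.barR_isBar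
    obtain ⟨C, hC⟩ := exists_KLBasis hT hb
    exact ⟨HT affD.toCoxeterSystem, inferInstance, inferInstance, TB affD.toCoxeterSystem,
      hT.barR, C, kform affD.toCoxeterSystem, hT, hb, hC, kform_isAlcoveForm _⟩
  · intro W _ cs k hk
    exact isGeometric hk
  · intro W _ cs H _ _ T bar C k hT hb hC hk
    exact main hT hb hC hk

end Pool.Agent.Results.MP_eee0a5_al.SignTypes
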